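import Mathlib

set_option autoImplicit false

namespace Pool.Agent.Results.MP_f4c587_an.EvenDimension

open Module
open scoped InnerProductSpace ComplexConjugate


/-- A family of subspaces of `ℝ^M` allows phase retrieval: the norms of the orthogonal projections
of a vector onto all members of the family determine the vector up to sign. -/
def AllowsPhaseRetrieval {M N : ℕ} (W : Fin N → Submodule ℝ (EuclideanSpace ℝ (Fin M))) : Prop :=
  ∀ x y : EuclideanSpace ℝ (Fin M),
    (∀ n, ‖(W n).starProjection x‖ = ‖(W n).starProjection y‖) → x = y ∨ x = -y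

/-- least number of subspaces of `ℝ^M` (of any dimensions) allowing phase retrieval -/
noncomputable def Nmin (M : ℕ) : ℕ :=
  sInf {N : ℕ | ∃ W : Fin N → Submodule ℝ (EuclideanSpace ℝ (Fin M)), AllowsPhaseRetrieval W}

/-- least number of `k`-dimensional subspaces of `ℝ^M` allowing phase retrieval -/
noncomputable def Nk (k M : ℕ) : ℕ :=
  sInf {N : ℕ | ∃ W : Fin N → Submodule ℝ (EuclideanSpace ℝ (Fin M)),
    (∀ n, Module.finrank ℝ (W n) = k) ∧ AllowsPhaseRetrieval W}

noncomputable section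

abbrev E (m : ℕ) := EuclideanSpace ℂ (Fin m)

/-- value at `μ` of the polynomial whose coefficient vector is `x` -/
def ev {m : ℕ} (μ : ℂ) (x : E m) : ℂ := ∑ j : Fin m, x j * μ ^ (j : ℕ)

/-- the symmetric bilinear form given by the flip -/
def bf {m : ℕ} (x y : E m) : ℂ := ∑ j : Fin m, x (Fin.rev j) * y j

/-- the antilinear map attached to `μ, ζ, κ` -/
def S {m : ℕ} (μ ζ κ : ℂ) : E m →ₗ[ℝ] E m where
  toFun x := WithLp.toLp 2 (fun j : Fin m =>
    conj (ζ * (x (Fin.rev j) + κ * (conj μ) ^ (m - 1) * μ ^ (j : ℕ) * ev μ x)))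
  map_add' x y := by
    ext j
    simp only [ev, PiLp.add_apply, Finset.sum_add_distrib, add_mul, ← map_add]
    congr 1
    ring
  map_smul' r x := by
    ext j
    simp only [ev, PiLp.smul_apply, RingHom.id_apply, Complex.real_smul]
    have h : ∑ i : Fin m, (r : ℂ) * x i * μ ^ (i : ℕ) = r * ∑ i : Fin m, x i * μ ^ (i : ℕ) := by
      rw [Finset.mul_sum]
      exact Finset.sum_congr rfl fun i _ => by ring
    rw [h]
    simp only [map_mul, map_add, Complex.conj_ofReal]
    ring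

theorem S_apply {m : ℕ} (μ ζ κ : ℂ) (x : E m) (j : Fin m) :
    S μ ζ κ x j = conj (ζ * (x (Fin.rev j) + κ * (conj μ) ^ (m - 1) * μ ^ (j : ℕ) * ev μ x)) := rfl

theorem pow_aux {m : ℕ} {μ : ℂ} (hμ : μ * conj μ = 1) (j : Fin m) :
    (conj μ) ^ ((Fin.rev j : Fin m) : ℕ) = (conj μ) ^ (m - 1) * μ ^ (j : ℕ) := by
  have h1 : ((Fin.rev j : Fin m) : ℕ) + (j : ℕ) = m - 1 := by
    rw [Fin.val_rev]; omega
  rw [← h1, pow_add, mul_assoc, ← mul_pow, mul_comm (conj μ) μ, hμ, one_pow, mul_one]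

theorem ev_S {m : ℕ} {μ ζ κ : ℂ} (hμ : μ * conj μ = 1) (x : E m) :
    ev μ (S μ ζ κ x) = conj ζ * μ ^ (m - 1) * conj (ev μ x) * (1 + m * conj κ) := by
  have h0 : ev μ (S μ ζ κ x) = ∑ j : Fin m, (conj ζ * (conj (x (Fin.rev j)) * μ ^ (j : ℕ)) +
      conj ζ * conj κ * μ ^ (m - 1) * conj (ev μ x)) := by
    unfold ev
    refine Finset.sum_congr rfl fun j _ => ?_
    rw [S_apply]
    simp only [map_mul, map_add, map_pow, Complex.conj_conj]
    have h2 : (conj μ) ^ (j : ℕ) * μ ^ (j : ℕ) = 1 := by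
      rw [← mul_pow, mul_comm, hμ, one_pow]
    calc conj ζ * (conj (x (Fin.rev j)) + conj κ * μ ^ (m - 1) * (conj μ) ^ (j : ℕ) *
          conj (ev μ x)) * μ ^ (j : ℕ)
        = conj ζ * (conj (x (Fin.rev j)) * μ ^ (j : ℕ)) + conj ζ * conj κ * μ ^ (m - 1) *
          conj (ev μ x) * ((conj μ) ^ (j : ℕ) * μ ^ (j : ℕ)) := by ring
      _ = _ := by rw [h2, mul_one]; rfl
  have h1 : ∑ j : Fin m, conj (x (Fin.rev j)) * μ ^ (j : ℕ) = μ ^ (m - 1) * conj (ev μ x) := by
    unfold ev
    rw [map_sum, Finset.mul_sum, ← Equiv.sum_comp Fin.revPerm]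
    refine Finset.sum_congr rfl fun j _ => ?_
    simp only [Fin.revPerm_apply, Fin.rev_rev, map_mul, map_pow]
    have hj := pow_aux (μ := conj μ) (by rw [Complex.conj_conj, mul_comm]; exact hμ) j
    rw [Complex.conj_conj] at hj
    rw [hj]; ring
  rw [h0, Finset.sum_add_distrib, ← Finset.mul_sum, h1, Finset.sum_const, Finset.card_univ,
    Fintype.card_fin, nsmul_eq_mul]
  ring

theorem S_S {m : ℕ} {μ ζ κ : ℂ} (hμ : μ * conj μ = 1) (hζ : ζ * conj ζ = 1)
    (hκ : κ + conj κ + m * (κ * conj κ) = 0) (x : E m) : S μ ζ κ (S μ ζ κ x) = x := by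
  ext j
  rw [S_apply, ev_S hμ, S_apply]
  simp only [map_mul, map_add, map_pow, Complex.conj_conj, map_one, map_natCast, Fin.rev_rev]
  have h3 := pow_aux hμ j
  have h4 := congrArg conj h3
  simp only [map_mul, map_pow, Complex.conj_conj] at h4
  have h5 : (conj μ) ^ (m - 1) * μ ^ (m - 1) = 1 := by
    rw [← mul_pow, mul_comm, hμ, one_pow]
  rw [h4]
  have h6 : conj ζ * ζ = 1 := by rw [mul_comm]; exact hζ
  calc conj ζ * (ζ * (x j + κ * (conj μ) ^ (m - 1) * (μ ^ (m - 1) * (conj μ) ^ (j : ℕ)) * ev μ x) +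
        conj κ * μ ^ (m - 1) * (conj μ) ^ (j : ℕ) *
          (ζ * (conj μ) ^ (m - 1) * ev μ x * (1 + m * κ)))
      = (conj ζ * ζ) * (x j + (conj μ) ^ (j : ℕ) * ev μ x * ((conj μ) ^ (m - 1) * μ ^ (m - 1)) *
        (κ + conj κ + m * (κ * conj κ))) := by ring
    _ = x j := by rw [h6, hκ]; ring

theorem inner_eq {m : ℕ} (x y : E m) : ⟪x, y⟫_ℝ = (∑ j, conj (x j) * y j).re := by
  rw [PiLp.inner_apply, Complex.re_sum]
  refine Finset.sum_congr rfl fun j _ => ?_
  simp [mul_comm]

theorem inner_S {m : ℕ} {μ ζ κ : ℂ} (x y : E m) :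
    ⟪S μ ζ κ x, y⟫_ℝ = (ζ * (bf x y + κ * (conj μ) ^ (m - 1) * (ev μ x * ev μ y))).re := by
  rw [inner_eq]
  congr 1
  have : ∀ j : Fin m, conj (S μ ζ κ x j) * y j =
      ζ * (x (Fin.rev j) * y j) + ζ * κ * (conj μ) ^ (m - 1) * ev μ x * (y j * μ ^ (j : ℕ)) := by
    intro j
    rw [S_apply, Complex.conj_conj]; ring
  simp_rw [this]
  rw [Finset.sum_add_distrib, ← Finset.mul_sum, ← Finset.mul_sum]
  unfold bf ev
  ring

theorem bf_comm {m : ℕ} (x y : E m) : bf x y = bf y x := by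
  unfold bf
  rw [← Equiv.sum_comp Fin.revPerm]
  refine Finset.sum_congr rfl fun j _ => ?_
  simp only [Fin.revPerm_apply, Fin.rev_rev]
  ring

theorem inner_S_comm {m : ℕ} {μ ζ κ : ℂ} (x y : E m) : ⟪S μ ζ κ x, y⟫_ℝ = ⟪x, S μ ζ κ y⟫_ℝ := by
  rw [real_inner_comm (S μ ζ κ y) x, inner_S, inner_S, bf_comm x y, mul_comm (ev μ x)]


/-- fixed space of the antilinear map -/
def W {m : ℕ} (μ ζ κ : ℂ) : Submodule ℝ (E m) := LinearMap.ker (S μ ζ κ - LinearMap.id)

theorem mem_W {m : ℕ} {μ ζ κ : ℂ} (x : E m) : x ∈ W μ ζ κ ↔ S μ ζ κ x = x := by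
  unfold W
  rw [LinearMap.mem_ker, LinearMap.sub_apply, LinearMap.id_apply, sub_eq_zero]

theorem proj_W {m : ℕ} {μ ζ κ : ℂ} (hS : ∀ x : E m, S μ ζ κ (S μ ζ κ x) = x) (x : E m) :
    (W μ ζ κ).starProjection x = (1 / 2 : ℝ) • (x + S μ ζ κ x) := by
  refine Submodule.eq_starProjection_of_mem_of_inner_eq_zero ?_ ?_
  · rw [mem_W, map_smul, map_add, hS, add_comm]
  · intro w hw
    rw [mem_W] at hw
    have h1 : x - (1 / 2 : ℝ) • (x + S μ ζ κ x) = (1 / 2 : ℝ) • (x - S μ ζ κ x) := by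
      module
    have h2 : ⟪S μ ζ κ x, w⟫_ℝ = ⟪x, w⟫_ℝ := by rw [inner_S_comm, hw]
    rw [h1, real_inner_smul_left, inner_sub_left, h2, sub_self, mul_zero]

theorem norm_proj_W {m : ℕ} {μ ζ κ : ℂ} (hS : ∀ x : E m, S μ ζ κ (S μ ζ κ x) = x) (x : E m) :
    ‖(W μ ζ κ).starProjection x‖ ^ 2 = (1 / 2) * (⟪x, x⟫_ℝ + ⟪S μ ζ κ x, x⟫_ℝ) := by
  rw [proj_W hS, ← real_inner_self_eq_norm_sq, real_inner_smul_left, real_inner_smul_right,
    inner_add_left, inner_add_right, inner_add_right]
  have h1 : ⟪S μ ζ κ x, S μ ζ κ x⟫_ℝ = ⟪x, x⟫_ℝ := by rw [inner_S_comm, hS]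
  have h2 : ⟪x, S μ ζ κ x⟫_ℝ = ⟪S μ ζ κ x, x⟫_ℝ := real_inner_comm _ _
  rw [h1, h2]; ring

/-- multiplication by the imaginary unit -/
def mulI {m : ℕ} : E m ≃ₗ[ℝ] E m :=
  LinearEquiv.ofLinearMap
    ((Complex.I • (LinearMap.id : E m →ₗ[ℂ] E m)).restrictScalars ℝ)
    (((-Complex.I) • (LinearMap.id : E m →ₗ[ℂ] E m)).restrictScalars ℝ)
    (by ext x; simp [smul_smul]) (by ext x; simp [smul_smul])

theorem mulI_apply {m : ℕ} (x : E m) : mulI x = Complex.I • x := rfl

theorem S_mulI {m : ℕ} (μ ζ κ : ℂ) (x : E m) : S μ ζ κ (mulI x) = -mulI (S μ ζ κ x) := by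
  ext j
  have h1 : ev μ (mulI x) = Complex.I * ev μ x := by
    unfold ev
    rw [Finset.mul_sum]
    refine Finset.sum_congr rfl fun i _ => ?_
    rw [mulI_apply]
    simp only [PiLp.smul_apply, smul_eq_mul]
    ring
  rw [S_apply, h1, mulI_apply, mulI_apply]
  simp only [PiLp.neg_apply, PiLp.smul_apply, smul_eq_mul]
  rw [S_apply]
  simp only [map_mul, map_add, map_pow, Complex.conj_I]
  ring

theorem orth_W {m : ℕ} {μ ζ κ : ℂ} (hS : ∀ x : E m, S μ ζ κ (S μ ζ κ x) = x) :
    (W μ ζ κ : Submodule ℝ (E m)).map (mulI : E m ≃ₗ[ℝ] E m).toLinearMap = (W μ ζ κ)ᗮ := by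
  ext x
  rw [Submodule.mem_orthogonal]
  constructor
  · rintro ⟨y, hy, rfl⟩ w hw
    rw [SetLike.mem_coe, mem_W] at hy
    rw [mem_W] at hw
    have h1 : S μ ζ κ (mulI y) = -mulI y := by rw [S_mulI, hy]
    have h2 : ⟪w, mulI y⟫_ℝ = -⟪w, mulI y⟫_ℝ := by
      conv_lhs => rw [← hw]
      rw [inner_S_comm, h1, inner_neg_right]
    have h3 : ⟪w, mulI y⟫_ℝ = 0 := by linarith
    exact h3
  · intro h
    have h1 : S μ ζ κ x = -x := by
      have h2 : x + S μ ζ κ x ∈ W μ ζ κ := by
        rw [mem_W, map_add, hS, add_comm]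
      have h3 := h _ h2
      have h4 : ⟪x + S μ ζ κ x, x + S μ ζ κ x⟫_ℝ = 0 := by
        have h5 : ⟪x + S μ ζ κ x, S μ ζ κ x⟫_ℝ = ⟪x + S μ ζ κ x, x⟫_ℝ := by
          rw [← inner_S_comm, (mem_W _).1 h2]
        rw [inner_add_right (x + S μ ζ κ x), h5, h3, add_zero]
      have h6 := inner_self_eq_zero (𝕜 := ℝ).1 h4
      exact (neg_eq_of_add_eq_zero_right h6).symm
    refine ⟨mulI.symm x, ?_, mulI.apply_symm_apply x⟩
    rw [SetLike.mem_coe, mem_W]
    apply mulI.injective
    rw [mulI.apply_symm_apply]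
    have h7 := S_mulI μ ζ κ (mulI.symm x)
    rw [mulI.apply_symm_apply, h1] at h7
    exact (neg_injective h7).symm

theorem finrank_W {m : ℕ} {μ ζ κ : ℂ} (hS : ∀ x : E m, S μ ζ κ (S μ ζ κ x) = x) :
    finrank ℝ (W μ ζ κ : Submodule ℝ (E m)) = m := by
  have h1 := Submodule.finrank_add_finrank_orthogonal (W μ ζ κ : Submodule ℝ (E m))
  have h2 : finrank ℝ (E m) = 2 * m := by
    rw [finrank_real_of_complex]; simp
  have h3 := LinearEquiv.finrank_map_eq (mulI : E m ≃ₗ[ℝ] E m) (W μ ζ κ)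
  have h4 := orth_W hS
  have h5 : finrank ℝ ((W μ ζ κ)ᗮ : Submodule ℝ (E m)) = finrank ℝ (W μ ζ κ : Submodule ℝ (E m)) := by
    rw [← h4]; exact h3
  omega


/-- the polynomial with coefficient vector `x` -/
def pol {m : ℕ} (x : E m) : Polynomial ℂ := ∑ j : Fin m, Polynomial.monomial (j : ℕ) (x j)

theorem coeff_pol {m : ℕ} (x : E m) (k : ℕ) :
    (pol x).coeff k = if h : k < m then x ⟨k, h⟩ else 0 := by
  unfold pol
  rw [Polynomial.finsetSum_coeff]
  simp_rw [Polynomial.coeff_monomial]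
  by_cases h : k < m
  · rw [dif_pos h, Finset.sum_eq_single (⟨k, h⟩ : Fin m)]
    · simp
    · intro b _ hb
      rw [if_neg]
      intro hk
      exact hb (Fin.ext hk)
    · simp
  · rw [dif_neg h]
    refine Finset.sum_eq_zero fun b _ => ?_
    rw [if_neg]
    have := b.isLt
    omega

theorem eval_pol {m : ℕ} (μ : ℂ) (x : E m) : (pol x).eval μ = ev μ x := by
  unfold pol ev
  rw [Polynomial.eval_finsetSum]
  simp_rw [Polynomial.eval_monomial]

theorem natDegree_pol {m : ℕ} (x : E m) : (pol x).natDegree ≤ m - 1 := by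
  rw [Polynomial.natDegree_le_iff_coeff_eq_zero]
  intro N hN
  rw [coeff_pol, dif_neg (by omega)]

theorem pol_eq_zero {m : ℕ} {x : E m} (h : pol x = 0) : x = 0 := by
  ext j
  have h1 := coeff_pol x (j : ℕ)
  rw [h, dif_pos j.isLt] at h1
  simpa using h1.symm

theorem bf_eq {m : ℕ} (hm : 1 ≤ m) (x y : E m) : bf x y = (pol x * pol y).coeff (m - 1) := by
  rw [Polynomial.coeff_mul, Finset.Nat.sum_antidiagonal_eq_sum_range_succ_mk,
    Nat.succ_eq_add_one, Nat.sub_add_cancel hm, ← Fin.sum_univ_eq_sum_range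
      (fun k => (pol x).coeff k * (pol y).coeff (m - 1 - k)) m, bf, ← Equiv.sum_comp Fin.revPerm]
  refine Finset.sum_congr rfl fun j _ => ?_
  have h1 := j.isLt
  simp only [Fin.revPerm_apply, Fin.rev_rev]
  rw [coeff_pol, coeff_pol, dif_pos h1, dif_pos (by omega)]
  have h2 : Fin.rev j = (⟨m - 1 - (j : ℕ), by omega⟩ : Fin m) :=
    Fin.ext (by rw [Fin.val_rev]; simp only; omega)
  rw [h2]

/-- if the product of the two polynomials is a nonzero multiple of `X` then the vectors are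
orthogonal -/
theorem orth_of_mul_aux {m : ℕ} {u v : E m} {c : ℂ} (hc : c ≠ 0)
    (h : pol u * pol v = Polynomial.C c * Polynomial.X) (hu : Polynomial.X ∣ pol u) :
    ∀ j, conj (u j) * v j = 0 := by
  obtain ⟨q, hq⟩ := hu
  have h1 : q * pol v = Polynomial.C c := by
    have h2 : Polynomial.X * (q * pol v) = Polynomial.X * Polynomial.C c := by
      rw [← mul_assoc, ← hq, h, mul_comm]
    exact mul_left_cancel₀ Polynomial.X_ne_zero h2
  have hC : (Polynomial.C c : Polynomial ℂ) ≠ 0 := Polynomial.C_ne_zero.2 hc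
  have hq0 : q ≠ 0 := by rintro rfl; rw [zero_mul] at h1; exact hC h1.symm
  have hv0 : pol v ≠ 0 := by intro h3; rw [h3, mul_zero] at h1; exact hC h1.symm
  have h4 : q.natDegree + (pol v).natDegree = 0 := by
    rw [← Polynomial.natDegree_mul hq0 hv0, h1, Polynomial.natDegree_C]
  intro j
  by_cases hj : (j : ℕ) = 0
  · have h5 : (pol u).coeff (j : ℕ) = 0 := by
      rw [hj, hq, Polynomial.coeff_X_mul_zero]
    rw [coeff_pol, dif_pos j.isLt] at h5
    have h6 : u j = 0 := h5
    rw [h6, map_zero, zero_mul]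
  · have h5 : (pol v).coeff (j : ℕ) = 0 := by
      apply Polynomial.coeff_eq_zero_of_natDegree_lt
      omega
    rw [coeff_pol, dif_pos j.isLt] at h5
    have h6 : v j = 0 := h5
    rw [h6, mul_zero]

theorem orth_of_mul {m : ℕ} {u v : E m} {c : ℂ} (hc : c ≠ 0)
    (h : pol u * pol v = Polynomial.C c * Polynomial.X) : ⟪u, v⟫_ℝ = 0 := by
  have hX : Polynomial.X ∣ pol u * pol v := by rw [h]; exact Dvd.intro_left _ rfl
  rcases Polynomial.prime_X.dvd_or_dvd hX with hu | hv
  · rw [inner_eq, Finset.sum_eq_zero fun j _ => orth_of_mul_aux hc h hu j]; rfl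
  · rw [real_inner_comm, inner_eq, Finset.sum_eq_zero fun j _ =>
      orth_of_mul_aux hc (by rw [mul_comm]; exact h) hv j]; rfl

/-- the unimodular numbers used -/
def mu (k : ℕ) : ℂ := (1 + k * Complex.I) / (1 - k * Complex.I)

theorem den_ne (k : ℕ) : (1 - k * Complex.I : ℂ) ≠ 0 := by
  intro h
  have := congrArg Complex.re h
  simp at this

theorem mu_conj (k : ℕ) : mu k * conj (mu k) = 1 := by
  have h1 := den_ne k
  have h2 : (1 + k * Complex.I : ℂ) ≠ 0 := by
    intro h
    have := congrArg Complex.re h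
    simp at this
  unfold mu
  simp only [map_div₀, map_add, map_sub, map_mul, map_one, map_natCast, Complex.conj_I]
  rw [mul_neg, ← sub_eq_add_neg, sub_neg_eq_add]
  field_simp

theorem mu_inj : Function.Injective mu := by
  intro a b h
  unfold mu at h
  rw [div_eq_div_iff (den_ne a) (den_ne b)] at h
  have := congrArg Complex.im h
  simp at this
  have h2 : (a : ℝ) = b := by linarith
  exact_mod_cast h2

/-- the two phases -/
def eps (b : Bool) : ℂ := if b then ⟨3 / 5, 4 / 5⟩ else ⟨3 / 5, -4 / 5⟩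

theorem eps_conj (b : Bool) : eps b * conj (eps b) = 1 := by
  cases b <;> (apply Complex.ext <;> simp [eps] <;> norm_num)

theorem kap_eq (m : ℕ) (hm : 1 ≤ m) : ((Complex.I - 1) / m : ℂ) + conj ((Complex.I - 1) / m : ℂ) +
    m * (((Complex.I - 1) / m : ℂ) * conj ((Complex.I - 1) / m : ℂ)) = 0 := by
  have h : (m : ℂ) ≠ 0 := by exact_mod_cast (by omega : m ≠ 0)
  simp only [map_div₀, map_sub, Complex.conj_I, map_one, map_natCast]
  field_simp
  ring_nf
  rw [Complex.I_sq]; ring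


/-- the algebraic core -/
theorem core {m : ℕ} (hm : 2 ≤ m) (u v : E m)
    (h : ∀ (k : Fin (2 * m - 1)) (b : Bool), ⟪u, v⟫_ℝ +
      ⟪S (mu k) (eps b * mu k ^ (m - 2)) ((Complex.I - 1) / m) u, v⟫_ℝ = 0) : u = 0 ∨ v = 0 := by
  set κ : ℂ := (Complex.I - 1) / m with hκ
  set t : ℝ := ⟪u, v⟫_ℝ with ht
  have hm0 : (m : ℂ) ≠ 0 := by exact_mod_cast (by omega : m ≠ 0)
  have hm0' : (m : ℝ) ≠ 0 := by exact_mod_cast (by omega : m ≠ 0)
  have hκim : κ.im = 1 / m := by
    rw [hκ]
    rw [show ((m : ℂ)) = ((m : ℝ) : ℂ) by simp, Complex.div_ofReal_im]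
    simp
  have hκ0 : κ ≠ 0 := by
    intro h0
    rw [h0] at hκim
    have : (0 : ℝ) = 1 / m := hκim
    exact (one_div_ne_zero hm0') this.symm
  have hκ1 : κ + 1 ≠ 0 := by
    intro h0
    have h1 := congrArg Complex.im h0
    rw [Complex.add_im, hκim, Complex.one_im, Complex.zero_im, add_zero] at h1
    exact (one_div_ne_zero hm0') h1
  -- the value at each node
  have hval : ∀ k : Fin (2 * m - 1), mu k ^ (m - 1) * bf u v + κ * (ev (mu k) u * ev (mu k) v) =
      -(5 / 3) * t * mu k := by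
    intro k
    have h1 := h k true
    have h2 := h k false
    rw [inner_S] at h1 h2
    set μ := mu k with hμdef
    have hμ : μ * conj μ = 1 := mu_conj k
    set Z : ℂ := μ ^ (m - 2) * (bf u v + κ * (conj μ) ^ (m - 1) * (ev μ u * ev μ v)) with hZ
    have e1 : (eps true * μ ^ (m - 2) * (bf u v + κ * (conj μ) ^ (m - 1) * (ev μ u * ev μ v))).re =
        (3 / 5) * Z.re - (4 / 5) * Z.im := by
      rw [mul_assoc, ← hZ, Complex.mul_re]
      simp [eps]
    have e2 : (eps false * μ ^ (m - 2) * (bf u v + κ * (conj μ) ^ (m - 1) * (ev μ u * ev μ v))).re =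
        (3 / 5) * Z.re + (4 / 5) * Z.im := by
      rw [mul_assoc, ← hZ, Complex.mul_re]
      simp [eps]
      ring
    rw [e1] at h1
    rw [e2] at h2
    have h3 : Z.im = 0 := by linarith
    have h4 : Z.re = -(5 / 3) * t := by rw [h3] at h1; linarith
    have h5 : Z = ((-(5 / 3) * t : ℝ) : ℂ) := by
      apply Complex.ext
      · rw [h4, Complex.ofReal_re]
      · rw [h3, Complex.ofReal_im]
    have h6 : μ * Z = mu k ^ (m - 1) * bf u v + κ * (ev (mu k) u * ev (mu k) v) := by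
      have h7 : μ * μ ^ (m - 2) = μ ^ (m - 1) := by
        rw [← pow_succ']
        congr 1
        omega
      have h8 : μ ^ (m - 1) * (conj μ) ^ (m - 1) = 1 := by rw [← mul_pow, hμ, one_pow]
      calc μ * Z = (μ * μ ^ (m - 2)) * bf u v +
            κ * (ev μ u * ev μ v) * ((μ * μ ^ (m - 2)) * (conj μ) ^ (m - 1)) := by rw [hZ]; ring
        _ = _ := by rw [h7, h8, mul_one]
    rw [← h6, h5]
    push_cast
    ring
  -- the polynomial identity
  set P : Polynomial ℂ := pol u * pol v with hP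
  have hPdeg : P.natDegree ≤ 2 * m - 2 := by
    refine (Polynomial.natDegree_mul_le).trans ?_
    have h1 := natDegree_pol u
    have h2 := natDegree_pol v
    omega
  have hQ : Polynomial.C (bf u v) * Polynomial.X ^ (m - 1) + Polynomial.C κ * P +
      Polynomial.C ((5 / 3 : ℂ) * t) * Polynomial.X = 0 := by
    refine Polynomial.eq_zero_of_natDegree_lt_card_of_eval_eq_zero _
      (f := fun k : Fin (2 * m - 1) => mu k) ?_ ?_ ?_
    · intro a b hab
      exact Fin.ext (mu_inj hab)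
    · intro k
      have h1 := hval k
      simp only [Polynomial.eval_add, Polynomial.eval_mul, Polynomial.eval_C, Polynomial.eval_pow,
        Polynomial.eval_X, hP, eval_pol]
      linear_combination h1
    · rw [Fintype.card_fin]
      refine lt_of_le_of_lt (b := 2 * m - 2) ?_ (by omega)
      refine Polynomial.natDegree_add_le_of_degree_le (Polynomial.natDegree_add_le_of_degree_le ?_ ?_)
        ?_
      · exact (Polynomial.natDegree_C_mul_X_pow_le _ _).trans (by omega)
      · exact (Polynomial.natDegree_C_mul_le _ _).trans hPdeg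
      · exact (Polynomial.natDegree_C_mul_le _ _).trans (Polynomial.natDegree_X_le.trans (by omega))
  have hβ : bf u v = P.coeff (m - 1) := bf_eq (by omega) u v
  have hcoef := congrArg (fun p => Polynomial.coeff p (m - 1)) hQ
  simp only [Polynomial.coeff_add, Polynomial.coeff_C_mul, Polynomial.coeff_X_pow,
    Polynomial.coeff_X, Polynomial.coeff_zero, if_true, mul_one] at hcoef
  rw [← hβ] at hcoef
  -- either the product vanishes or the two vectors are orthogonal
  have hzero : P = 0 → u = 0 ∨ v = 0 := by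
    intro h0
    rcases mul_eq_zero.1 h0 with h1 | h1
    · exact Or.inl (pol_eq_zero h1)
    · exact Or.inr (pol_eq_zero h1)
  have hPX : ∃ c : ℂ, P = Polynomial.C c * Polynomial.X := by
    by_cases h2 : m = 2
    · subst h2
      refine ⟨-(bf u v + (5 / 3 : ℂ) * t) / κ, ?_⟩
      have h3 : Polynomial.C κ * P =
          Polynomial.C κ * (Polynomial.C (-(bf u v + (5 / 3 : ℂ) * t) / κ) * Polynomial.X) := by
        have h6 : Polynomial.C κ * (Polynomial.C (-(bf u v + (5 / 3 : ℂ) * t) / κ) *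
            Polynomial.X) = Polynomial.C (-(bf u v + (5 / 3 : ℂ) * t)) * Polynomial.X := by
          rw [← mul_assoc, ← Polynomial.C_mul, mul_div_cancel₀ _ hκ0]
        rw [h6, Polynomial.C_neg, Polynomial.C_add]
        simp only [Nat.add_one_sub_one, pow_one] at hQ
        linear_combination hQ
      exact mul_left_cancel₀ (Polynomial.C_ne_zero.2 hκ0) h3
    · have h3 : ¬ (1 = m - 1) := by omega
      rw [if_neg h3, mul_zero, add_zero] at hcoef
      have h4 : bf u v = 0 := by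
        have h5 : (κ + 1) * bf u v = 0 := by linear_combination hcoef
        exact (mul_eq_zero.1 h5).resolve_left hκ1
      refine ⟨-((5 / 3 : ℂ) * t) / κ, ?_⟩
      have h3 : Polynomial.C κ * P =
          Polynomial.C κ * (Polynomial.C (-((5 / 3 : ℂ) * t) / κ) * Polynomial.X) := by
        have h6 : Polynomial.C κ * (Polynomial.C (-((5 / 3 : ℂ) * t) / κ) * Polynomial.X) =
            Polynomial.C (-((5 / 3 : ℂ) * t)) * Polynomial.X := by
          rw [← mul_assoc, ← Polynomial.C_mul, mul_div_cancel₀ _ hκ0]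
        rw [h6, Polynomial.C_neg]
        rw [h4, Polynomial.C_0, zero_mul, zero_add] at hQ
        linear_combination hQ
      exact mul_left_cancel₀ (Polynomial.C_ne_zero.2 hκ0) h3
  obtain ⟨c, hc⟩ := hPX
  by_cases hc0 : c = 0
  · apply hzero
    rw [hc, hc0, Polynomial.C_0, zero_mul]
  · have ht0 : t = 0 := orth_of_mul hc0 hc
    apply hzero
    rw [ht0, Complex.ofReal_zero, mul_zero, zero_mul, add_zero] at hcoef
    have h4 : bf u v = 0 := by
      have h5 : (κ + 1) * bf u v = 0 := by linear_combination hcoef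
      exact (mul_eq_zero.1 h5).resolve_left hκ1
    rw [h4, ht0, Complex.ofReal_zero, mul_zero, Polynomial.C_0, zero_mul, zero_mul, zero_add,
      add_zero] at hQ
    exact (mul_eq_zero.1 hQ).resolve_left (Polynomial.C_ne_zero.2 hκ0)


/-- `4m - 2` subspaces of dimension `m` of `ℝ^(2m)` allowing phase retrieval -/
theorem exists_half {m : ℕ} (hm : 2 ≤ m) :
    ∃ V : Fin (2 * (2 * m) - 2) → Submodule ℝ (EuclideanSpace ℝ (Fin (2 * m))),
      (∀ n, finrank ℝ (V n) = m) ∧ AllowsPhaseRetrieval V := by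
  have hcard : Fintype.card (Fin (2 * m - 1) × Bool) = 2 * (2 * m) - 2 := by
    rw [Fintype.card_prod, Fintype.card_fin, Fintype.card_bool]; omega
  have hfr : finrank ℝ (E m) = 2 * m := by
    rw [finrank_real_of_complex]; simp
  let σ : Fin (2 * (2 * m) - 2) ≃ Fin (2 * m - 1) × Bool := (Fintype.equivFinOfCardEq hcard).symm
  let e : E m ≃ₗᵢ[ℝ] EuclideanSpace ℝ (Fin (2 * m)) :=
    ((stdOrthonormalBasis ℝ (E m)).reindex (finCongr hfr)).repr
  have hζ : ∀ (k : ℕ) (b : Bool),
      (eps b * mu k ^ (m - 2)) * conj (eps b * mu k ^ (m - 2)) = 1 := by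
    intro k b
    rw [map_mul, map_pow]
    calc eps b * mu k ^ (m - 2) * (conj (eps b) * conj (mu k) ^ (m - 2))
        = (eps b * conj (eps b)) * (mu k * conj (mu k)) ^ (m - 2) := by rw [mul_pow]; ring
      _ = 1 := by rw [eps_conj, mu_conj, one_pow, one_mul]
  have hS : ∀ (k : ℕ) (b : Bool) (x : E m),
      S (mu k) (eps b * mu k ^ (m - 2)) ((Complex.I - 1) / m)
        (S (mu k) (eps b * mu k ^ (m - 2)) ((Complex.I - 1) / m) x) = x :=
    fun k b x => S_S (mu_conj k) (hζ k b) (kap_eq m (by omega)) x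
  refine ⟨fun n => (W (mu (σ n).1) (eps (σ n).2 * mu (σ n).1 ^ (m - 2))
    ((Complex.I - 1) / m) : Submodule ℝ (E m)).map (e.toLinearEquiv : E m →ₗ[ℝ] _), ?_, ?_⟩
  · intro n
    rw [LinearEquiv.finrank_map_eq e.toLinearEquiv]
    exact finrank_W (hS _ _)
  · intro x y hxy
    set x' := e.symm x with hx'
    set y' := e.symm y with hy'
    have hcore := core hm (x' - y') (x' + y') (by
      intro k b
      have h1 := hxy (σ.symm (k, b))
      simp only [Equiv.apply_symm_apply] at h1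
      rw [Submodule.starProjection_map_apply, Submodule.starProjection_map_apply,
        LinearIsometryEquiv.norm_map, LinearIsometryEquiv.norm_map] at h1
      have h2 := congrArg (fun r : ℝ => r ^ 2) h1
      beta_reduce at h2
      rw [norm_proj_W (hS k b), norm_proj_W (hS k b)] at h2
      have h3 := inner_S_comm (μ := mu k) (ζ := eps b * mu k ^ (m - 2))
        (κ := (Complex.I - 1) / m) x' y'
      have h3' : ⟪S (mu k) (eps b * mu k ^ (m - 2)) ((Complex.I - 1) / m) x', y'⟫_ℝ =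
          ⟪S (mu k) (eps b * mu k ^ (m - 2)) ((Complex.I - 1) / m) y', x'⟫_ℝ := by
        rw [real_inner_comm x' (S (mu k) (eps b * mu k ^ (m - 2)) ((Complex.I - 1) / m) y')]
        exact h3
      rw [map_sub, inner_sub_left, inner_sub_left, inner_add_right, inner_add_right,
        inner_add_right, inner_add_right, real_inner_comm x' y']
      linarith)
    rcases hcore with h | h
    · left
      have h1 : x' = y' := sub_eq_zero.1 h
      exact e.symm.injective h1
    · right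
      have h1 : x' = -y' := eq_neg_of_add_eq_zero_left h
      apply e.symm.injective
      rw [map_neg]; exact h1

/-- a nonzero vector orthogonal to fewer than `M` lines -/
theorem exists_orth {M N : ℕ} (V : Fin N → Submodule ℝ (EuclideanSpace ℝ (Fin M)))
    (hV : ∀ n, finrank ℝ (V n) = 1) (s : Finset (Fin N)) (hs : s.card < M) :
    ∃ u : EuclideanSpace ℝ (Fin M), u ≠ 0 ∧ ∀ n ∈ s, (V n).starProjection u = 0 := by
  have h1 : ∀ n, ∃ w : EuclideanSpace ℝ (Fin M), V n = ℝ ∙ w := by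
    intro n
    obtain ⟨w, _, hw⟩ := finrank_eq_one_iff'.1 (hV n)
    refine ⟨w, le_antisymm ?_ ?_⟩
    · intro z hz
      obtain ⟨c, hc⟩ := hw ⟨z, hz⟩
      rw [Submodule.mem_span_singleton]
      exact ⟨c, congrArg Subtype.val hc⟩
    · rw [Submodule.span_singleton_le_iff_mem]
      exact w.2
  choose w hw using h1
  let L : EuclideanSpace ℝ (Fin M) →ₗ[ℝ] (s → ℝ) :=
    LinearMap.pi fun n => (innerSL ℝ (w n)).toLinearMap
  have h2 : LinearMap.ker L ≠ ⊥ := by
    apply LinearMap.ker_ne_bot_of_finrank_lt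
    rw [finrank_euclideanSpace_fin, finrank_pi, Fintype.card_coe]
    exact hs
  obtain ⟨u, hu, hu0⟩ := (Submodule.ne_bot_iff _).1 h2
  refine ⟨u, hu0, fun n hn => ?_⟩
  have h3 : ⟪w n, u⟫_ℝ = 0 := by
    have h4 := congrFun (LinearMap.mem_ker.1 hu) ⟨n, hn⟩
    exact h4
  apply Submodule.eq_starProjection_of_mem_of_inner_eq_zero (Submodule.zero_mem _)
  intro z hz
  rw [hw n, Submodule.mem_span_singleton] at hz
  obtain ⟨c, rfl⟩ := hz
  rw [sub_zero, real_inner_comm, real_inner_smul_left, h3, mul_zero]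

theorem lines_lower {M N : ℕ} (hN : N ≤ 2 * M - 2) (hM : 1 ≤ M)
    (V : Fin N → Submodule ℝ (EuclideanSpace ℝ (Fin M)))
    (hV : ∀ n, finrank ℝ (V n) = 1) : ¬ AllowsPhaseRetrieval V := by
  intro hP
  set A : Finset (Fin N) := Finset.univ.filter (fun n => (n : ℕ) < M - 1) with hA
  set B : Finset (Fin N) := Finset.univ.filter (fun n => ¬ (n : ℕ) < M - 1) with hB
  have hcA : A.card < M := by
    have h1 : A.card ≤ (Finset.range (M - 1)).card := by
      refine Finset.card_le_card_of_injOn (fun n => (n : ℕ)) ?_ (fun a _ b _ h => Fin.ext h)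
      intro n hn
      rw [Finset.mem_coe, hA, Finset.mem_filter] at hn
      simpa using hn.2
    rw [Finset.card_range] at h1
    omega
  have hcB : B.card < M := by
    have h1 : B.card ≤ (Finset.range (M - 1)).card := by
      refine Finset.card_le_card_of_injOn (fun n => (n : ℕ) - (M - 1)) ?_ ?_
      · intro n hn
        have := n.isLt
        rw [Finset.mem_coe, hB, Finset.mem_filter] at hn
        have h1 := hn.2
        rw [Finset.mem_coe, Finset.mem_range]
        show (n : ℕ) - (M - 1) < M - 1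
        omega
      · intro a ha b hb h
        rw [Finset.mem_coe, hB, Finset.mem_filter] at ha hb
        have h1 := ha.2
        have h2 := hb.2
        simp only at h
        exact Fin.ext (by omega)
    rw [Finset.card_range] at h1
    omega
  obtain ⟨u, hu0, hu⟩ := exists_orth V hV A hcA
  obtain ⟨v, hv0, hv⟩ := exists_orth V hV B hcB
  have h1 := hP (u + v) (u - v) (by
    intro n
    rw [map_add, map_sub]
    by_cases hn : (n : ℕ) < M - 1
    · rw [hu n (by rw [hA, Finset.mem_filter]; exact ⟨Finset.mem_univ _, hn⟩), zero_add, zero_sub,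
        norm_neg]
    · rw [hv n (by rw [hB, Finset.mem_filter]; exact ⟨Finset.mem_univ _, hn⟩), add_zero, sub_zero])
  rcases h1 with h1 | h1
  · apply hv0
    have h2 : (2 : ℝ) • v = 0 := by
      have h3 : (2 : ℝ) • v = (u + v) - (u - v) := by module
      rw [h3, h1, sub_self]
    exact (smul_eq_zero.1 h2).resolve_left (by norm_num)
  · apply hu0
    have h2 : (2 : ℝ) • u = 0 := by
      have h3 : (2 : ℝ) • u = (u + v) + (u - v) := by module
      rw [h3, h1]; module
    exact (smul_eq_zero.1 h2).resolve_left (by norm_num)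

/-- real polynomial with a given coefficient vector -/
def rpol {M : ℕ} (x : EuclideanSpace ℝ (Fin M)) : Polynomial ℝ :=
  ∑ j : Fin M, Polynomial.monomial (j : ℕ) (x j)

theorem coeff_rpol {M : ℕ} (x : EuclideanSpace ℝ (Fin M)) (k : ℕ) :
    (rpol x).coeff k = if h : k < M then x ⟨k, h⟩ else 0 := by
  unfold rpol
  rw [Polynomial.finsetSum_coeff]
  simp_rw [Polynomial.coeff_monomial]
  by_cases h : k < M
  · rw [dif_pos h, Finset.sum_eq_single (⟨k, h⟩ : Fin M)]
    · simp
    · intro b _ hb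
      rw [if_neg]
      intro hk
      exact hb (Fin.ext hk)
    · simp
  · rw [dif_neg h]
    refine Finset.sum_eq_zero fun b _ => ?_
    rw [if_neg]
    have := b.isLt
    omega

theorem rpol_eq_zero {M : ℕ} {x : EuclideanSpace ℝ (Fin M)} (h : rpol x = 0) : x = 0 := by
  ext j
  have h1 := coeff_rpol x (j : ℕ)
  rw [h, dif_pos j.isLt] at h1
  simpa using h1.symm

theorem natDegree_rpol {M : ℕ} (x : EuclideanSpace ℝ (Fin M)) : (rpol x).natDegree ≤ M - 1 := by
  rw [Polynomial.natDegree_le_iff_coeff_eq_zero]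
  intro N hN
  rw [coeff_rpol, dif_neg (by omega)]

/-- `2M - 1` lines of `ℝ^M` allowing phase retrieval -/
theorem lines_upper {M : ℕ} (hM : 1 ≤ M) :
    ∃ V : Fin (2 * M - 1) → Submodule ℝ (EuclideanSpace ℝ (Fin M)),
      (∀ n, finrank ℝ (V n) = 1) ∧ AllowsPhaseRetrieval V := by
  let w : ℕ → EuclideanSpace ℝ (Fin M) := fun k => WithLp.toLp 2 (fun j : Fin M => (k : ℝ) ^ (j : ℕ))
  have hw0 : ∀ k, w k ≠ 0 := by
    intro k h
    have h1 : w k ⟨0, hM⟩ = 0 := by rw [h]; rfl
    have h2 : w k ⟨0, hM⟩ = (k : ℝ) ^ 0 := rfl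
    rw [h2, pow_zero] at h1
    exact one_ne_zero h1
  have hev : ∀ k x, ⟪w k, x⟫_ℝ = (rpol x).eval (k : ℝ) := by
    intro k x
    unfold rpol
    rw [Polynomial.eval_finsetSum, PiLp.inner_apply]
    refine Finset.sum_congr rfl fun j _ => ?_
    rw [Polynomial.eval_monomial]
    simp [w]
  refine ⟨fun n => ℝ ∙ (w n), fun n => finrank_span_singleton (hw0 n), ?_⟩
  intro x y hxy
  have h0 : rpol (x - y) * rpol (x + y) = 0 := by
    refine Polynomial.eq_zero_of_natDegree_lt_card_of_eval_eq_zero _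
      (f := fun k : Fin (2 * M - 1) => ((k : ℕ) : ℝ)) ?_ ?_ ?_
    · intro a b hab
      have h1 : ((a : ℕ) : ℝ) = ((b : ℕ) : ℝ) := hab
      exact Fin.ext (by exact_mod_cast h1)
    · intro k
      have h1 := hxy k
      rw [Submodule.starProjection_singleton, Submodule.starProjection_singleton, norm_smul,
        norm_smul] at h1
      have h2 := mul_right_cancel₀ (norm_ne_zero_iff.2 (hw0 k)) h1
      rw [norm_div, norm_div] at h2
      have h3 : ‖(((‖w k‖ ^ 2 : ℝ)) : ℝ)‖ ≠ 0 := by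
        rw [norm_ne_zero_iff]
        exact pow_ne_zero 2 (norm_ne_zero_iff.2 (hw0 k))
      have h4 : ‖⟪w k, x⟫_ℝ‖ = ‖⟪w k, y⟫_ℝ‖ := by
        have h5 := (div_left_inj' h3).1 h2
        exact h5
      rw [Polynomial.eval_mul, ← hev, ← hev, inner_sub_right, inner_add_right]
      rw [Real.norm_eq_abs, Real.norm_eq_abs] at h4
      rcases abs_eq_abs.1 h4 with h5 | h5
      · rw [h5]; ring
      · rw [h5]; ring
    · rw [Fintype.card_fin]
      refine lt_of_le_of_lt Polynomial.natDegree_mul_le ?_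
      have h1 := natDegree_rpol (x - y)
      have h2 := natDegree_rpol (x + y)
      omega
  rcases mul_eq_zero.1 h0 with h | h
  · left; exact sub_eq_zero.1 (rpol_eq_zero h)
  · right; exact eq_neg_of_add_eq_zero_left (rpol_eq_zero h)

theorem Nk_one {M : ℕ} (hM : 1 ≤ M) : Nk 1 M = 2 * M - 1 := by
  apply le_antisymm
  · exact Nat.sInf_le (lines_upper hM)
  · refine le_csInf ⟨_, lines_upper hM⟩ ?_
    rintro N ⟨V, hV, hP⟩
    by_contra h
    exact lines_lower (by omega) hM V hV hP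

/-- **Main theorem.** For every even `M ≥ 4` there are `2M - 2` subspaces of `ℝ^M`, all of
dimension `M / 2`, that allow phase retrieval; since lines need `2M - 1`, the number `N_k(M)`
depends on `k`, and the general bound `2M - 1` is not optimal for any even `M ≥ 4`. -/
theorem result : ∀ M : ℕ, Even M → 4 ≤ M →
    (∃ V : Fin (2 * M - 2) → Submodule ℝ (EuclideanSpace ℝ (Fin M)),
      (∀ n, Module.finrank ℝ (V n) = M / 2) ∧ AllowsPhaseRetrieval V) ∧
    Nmin M ≤ 2 * M - 2 ∧ Nk (M / 2) M ≤ 2 * M - 2 ∧ Nk 1 M = 2 * M - 1 ∧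
    Nk (M / 2) M < Nk 1 M := by
  intro M hM h4
  obtain ⟨m, rfl⟩ := hM
  have h2 : m + m = 2 * m := by ring
  rw [h2] at h4 ⊢
  have h3 : 2 * m / 2 = m := by omega
  rw [h3]
  obtain ⟨V, hV, hP⟩ := exists_half (m := m) (by omega)
  have h5 : Nk m (2 * m) ≤ 2 * (2 * m) - 2 := Nat.sInf_le ⟨V, hV, hP⟩
  have h6 : Nk 1 (2 * m) = 2 * (2 * m) - 1 := Nk_one (by omega)
  refine ⟨⟨V, hV, hP⟩, Nat.sInf_le ⟨V, hP⟩, h5, h6, ?_⟩
  rw [h6]
  omega

end

end Pool.Agent.Results.MP_f4c587_an.EvenDimension
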